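import Pool.Agent.H64.Nev.Osgood

/-!
# Holomorphic functions of several variables are analytic
-/

open MeasureTheory Set Metric Filter Topology
open scoped ContDiff Real Nat ENNReal NNReal

namespace Pool.Agent.H11.FB

open Pool.Agent.H64.Nev

variable {E : Type*} [NormedAddCommGroup E] [NormedSpace ℂ E]
  {F : Type*} [NormedAddCommGroup F] [NormedSpace ℂ F]

/-- Cauchy estimates for the iterated derivatives -/
lemma norm_iteratedFDeriv_le [FiniteDimensional ℂ E] [CompleteSpace F] {f : E → F} {U : Set E}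
    (hU : IsOpen U) (hf : DifferentiableOn ℂ f U) {C δ : ℝ} (hδ : 0 < δ)
    (hC : ∀ y ∈ U, ‖f y‖ ≤ C) (n : ℕ) :
    ∀ x, closedBall x (n * δ) ⊆ U → ‖iteratedFDeriv ℂ n f x‖ ≤ C / δ ^ n := by
  induction n with
  | zero =>
    intro x hx
    rw [norm_iteratedFDeriv_zero, pow_zero, div_one]
    exact hC x (hx (mem_closedBall_self (by simp)))
  | succ n ih =>
    intro x hx
    rw [← norm_fderiv_iteratedFDeriv]
    have h0 : (0 : ℝ) ≤ n * δ := by positivity
    have hsub : ∀ y ∈ closedBall x δ, closedBall y (n * δ) ⊆ U := by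
      intro y hy z hz
      refine hx ?_
      rw [mem_closedBall] at hy hz ⊢
      push_cast
      calc dist z x ≤ dist z y + dist y x := dist_triangle _ _ _
        _ ≤ n * δ + δ := add_le_add hz hy
        _ = (n + 1) * δ := by ring
    have hyU : ∀ y ∈ closedBall x δ, y ∈ U := fun y hy => hsub y hy (mem_closedBall_self h0)
    have hd : ∀ y ∈ closedBall x δ, DifferentiableAt ℂ (iteratedFDeriv ℂ n f) y := by
      intro y hy
      have h1 : ContDiffAt ℂ ∞ f y := contDiffAt_of_differentiableOn hU hf (hyU y hy)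
      exact h1.differentiableAt_iteratedFDeriv (by exact_mod_cast WithTop.coe_lt_top n)
    have := norm_fderiv_le hδ hd (fun y hy => ih y (hsub y hy))
    rwa [div_div, ← pow_succ] at this

lemma iteratedDeriv_line [FiniteDimensional ℂ E] [CompleteSpace F] {f : E → F} {U : Set E}
    (hU : IsOpen U) (hf : DifferentiableOn ℂ f U) (x y : E) (n : ℕ) :
    ∀ z : ℂ, x + z • y ∈ U → iteratedDeriv n (fun z : ℂ => f (x + z • y)) z =
      iteratedFDeriv ℂ n f (x + z • y) (fun _ => y) := by
  induction n with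
  | zero => intro z _; simp
  | succ n ih =>
    intro z hz
    have hcont : Continuous (fun z : ℂ => x + z • y) := by fun_prop
    have hev : ∀ᶠ w in 𝓝 z, x + w • y ∈ U := hcont.continuousAt.eventually (hU.mem_nhds hz)
    have heq : iteratedDeriv n (fun z : ℂ => f (x + z • y)) =ᶠ[𝓝 z]
        fun w => iteratedFDeriv ℂ n f (x + w • y) (fun _ => y) := hev.mono fun w hw => ih w hw
    rw [iteratedDeriv_succ, heq.deriv_eq]
    have h1 : ContDiffAt ℂ ∞ f (x + z • y) := contDiffAt_of_differentiableOn hU hf hz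
    have h2 : DifferentiableAt ℂ (iteratedFDeriv ℂ n f) (x + z • y) :=
      h1.differentiableAt_iteratedFDeriv (by exact_mod_cast WithTop.coe_lt_top n)
    have h3 := (hasDerivAt_line h2)
    have h4 : HasDerivAt (fun w : ℂ => iteratedFDeriv ℂ n f (x + w • y) (fun _ => y))
        ((fderiv ℂ (iteratedFDeriv ℂ n f) (x + z • y) y) (fun _ => y)) z :=
      (ContinuousMultilinearMap.apply ℂ (fun _ : Fin n => E) F
        (fun _ => y)).hasFDerivAt.comp_hasDerivAt z h3
    rw [h4.deriv, iteratedFDeriv_succ_apply_left]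
    rfl

/-- Holomorphic functions on open subsets of finite dimensional spaces are analytic. -/
theorem analyticAt_of_differentiableOn [FiniteDimensional ℂ E] [CompleteSpace F] {f : E → F}
    {U : Set E} (hU : IsOpen U) (hf : DifferentiableOn ℂ f U) {x : E} (hx : x ∈ U) :
    AnalyticAt ℂ f x := by
  have : ProperSpace E := FiniteDimensional.proper ℂ E
  obtain ⟨r, hr, hrU⟩ := Metric.isOpen_iff.1 hU x hx
  set ρ := r / 2 with hρdef
  have hρ : 0 < ρ := by positivity
  have hsub : closedBall x ρ ⊆ U := (closedBall_subset_ball (by rw [hρdef]; linarith)).trans hrU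
  obtain ⟨C, hC⟩ := (isCompact_closedBall x ρ).exists_bound_of_continuousOn
    (hf.continuousOn.mono hsub)
  have hC0 : 0 ≤ C := (norm_nonneg _).trans (hC x (mem_closedBall_self hρ.le))
  set V := ball x ρ with hV
  have hVo : IsOpen V := isOpen_ball
  have hfV : DifferentiableOn ℂ f V := hf.mono (ball_subset_closedBall.trans hsub)
  have hCV : ∀ y ∈ V, ‖f y‖ ≤ C := fun y hy => hC y (ball_subset_closedBall hy)
  set p : FormalMultilinearSeries ℂ E F := fun n => ((n ! : ℂ)⁻¹) • iteratedFDeriv ℂ n f x with hp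
  -- bound for the coefficients
  set δ := ρ / 2 with hδdef
  have hδ : 0 < δ := by positivity
  have hpn : ∀ n, ‖p n‖ ≤ C * (Real.exp 1 / δ) ^ n := by
    intro n
    have h1 : ‖iteratedFDeriv ℂ n f x‖ ≤ C * ((n : ℝ) ^ n / δ ^ n) := by
      rcases Nat.eq_zero_or_pos n with rfl | hn
      · simp only [norm_iteratedFDeriv_zero, Nat.cast_zero, pow_zero, div_one, mul_one]
        exact hCV x (mem_ball_self hρ)
      · have hn0 : (0 : ℝ) < n := Nat.cast_pos.2 hn
        have h2 := norm_iteratedFDeriv_le hVo hfV (C := C) (δ := δ / n) (by positivity) hCV n x (by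
          have : (n : ℝ) * (δ / n) = δ := by field_simp
          rw [this]
          exact closedBall_subset_ball (by rw [hδdef]; linarith))
        refine h2.trans (le_of_eq ?_)
        rw [div_pow]
        field_simp
    rw [hp]
    simp only
    rw [norm_smul, norm_inv, Complex.norm_natCast]
    have h3 : (n : ℝ) ^ n / (n ! : ℝ) ≤ Real.exp 1 ^ n := by
      have := Real.pow_div_factorial_le_exp (x := (n : ℝ)) (by positivity) n
      rwa [← Real.exp_nat_mul, mul_one]
    have hf0 : (0 : ℝ) < (n ! : ℝ) := Nat.cast_pos.2 (Nat.factorial_pos n)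
    calc ((n ! : ℝ))⁻¹ * ‖iteratedFDeriv ℂ n f x‖
        ≤ ((n ! : ℝ))⁻¹ * (C * ((n : ℝ) ^ n / δ ^ n)) := by gcongr
      _ = C * ((n : ℝ) ^ n / (n ! : ℝ) / δ ^ n) := by field_simp
      _ ≤ C * (Real.exp 1 ^ n / δ ^ n) := by gcongr
      _ = C * (Real.exp 1 / δ) ^ n := by rw [div_pow (Real.exp 1) δ]
  -- the radius
  set R : ℝ≥0 := ⟨δ / Real.exp 1, by positivity⟩ with hR
  have hRr : (R : ℝ) = δ / Real.exp 1 := rfl
  have hR0 : 0 < (R : ℝ) := by rw [hRr]; positivity
  refine ⟨p, (R : ℝ≥0∞), ?_, ?_, ?_⟩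
  · refine p.le_radius_of_bound C fun n => ?_
    calc ‖p n‖ * (R : ℝ) ^ n ≤ C * (Real.exp 1 / δ) ^ n * (R : ℝ) ^ n := by
          gcongr
          exact hpn n
      _ = C * ((Real.exp 1 / δ) * (δ / Real.exp 1)) ^ n := by rw [hRr, mul_pow]; ring
      _ = C := by
          have : Real.exp 1 / δ * (δ / Real.exp 1) = 1 := by
            have := Real.exp_pos 1
            field_simp
          rw [this, one_pow, mul_one]
  · exact_mod_cast hR0
  · intro y hy
    have hyR : ‖y‖ < R := by
      rw [Metric.mem_eball, edist_zero_right] at hy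
      have : (‖y‖ₑ : ℝ≥0∞) < (R : ℝ≥0∞) := hy
      rw [enorm_eq_nnnorm, ENNReal.coe_lt_coe] at this
      exact_mod_cast this
    have hyρ : 2 * ‖y‖ < ρ := by
      have h1 : (R : ℝ) ≤ δ := by
        rw [hRr]
        refine div_le_self hδ.le ?_
        exact Real.one_le_exp (by norm_num)
      rw [hδdef] at h1
      linarith
    have hmaps : ∀ z ∈ ball (0 : ℂ) 2, x + z • y ∈ V := by
      intro z hz
      rw [mem_ball_zero_iff] at hz
      rw [hV, mem_ball, dist_eq_norm, add_sub_cancel_left, norm_smul]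
      have : ‖z‖ * ‖y‖ ≤ 2 * ‖y‖ := mul_le_mul_of_nonneg_right hz.le (norm_nonneg _)
      linarith
    have hg : DifferentiableOn ℂ (fun z : ℂ => f (x + z • y)) (ball 0 2) := fun z hz =>
      (hasDerivAt_line (hfV.differentiableAt
        (hVo.mem_nhds (hmaps z hz)))).differentiableAt.differentiableWithinAt
    have h1 := Complex.hasSum_taylorSeries_on_ball (f := fun z : ℂ => f (x + z • y)) (c := 0)
      (r := 2) (z := 1) (by exact_mod_cast hg) (by simp)
    have h2 : ∀ n, (n ! : ℂ)⁻¹ • ((1 : ℂ) - 0) ^ n •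
        iteratedDeriv n (fun z : ℂ => f (x + z • y)) 0 = p n fun _ => y := by
      intro n
      rw [iteratedDeriv_line hVo hfV x y n 0 (hmaps 0 (by simp))]
      simp [hp]
    simp only [h2, one_smul] at h1
    exact h1

end Pool.Agent.H11.FB
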