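import Pool.Agent.H11.FB.Analytic

/-!
# Local flows of holomorphic vector fields
-/

open MeasureTheory Set Metric Filter Topology
open scoped ContDiff Real ENNReal NNReal

namespace Pool.Agent.H11.FB

open Pool.Agent.H64.Nev

variable {E : Type*} [NormedAddCommGroup E] [NormedSpace ℂ E]
  {F : Type*} [NormedAddCommGroup F] [NormedSpace ℂ F]

/-- Weierstrass' theorem. -/
theorem differentiableOn_of_tendstoUniformlyOn [CompleteSpace F] {f : ℕ → E → F} {g : E → F}
    {U : Set E} (hU : IsOpen U) (hf : ∀ n, DifferentiableOn ℂ (f n) U)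
    (h : TendstoUniformlyOn f g atTop U) : DifferentiableOn ℂ g U := by
  intro x hx
  refine DifferentiableAt.differentiableWithinAt ?_
  obtain ⟨r, hr, hrU⟩ := Metric.isOpen_iff.1 hU x hx
  set ρ := r / 3 with hρdef
  have hρ : 0 < ρ := by positivity
  have hsub : ∀ y ∈ ball x ρ, closedBall y ρ ⊆ U := by
    intro y hy z hz
    refine hrU ?_
    rw [mem_ball] at hy ⊢
    rw [mem_closedBall] at hz
    calc dist z x ≤ dist z y + dist y x := dist_triangle _ _ _
      _ < r := by rw [hρdef] at hy hz; linarith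
  have hd : ∀ n, ∀ y ∈ U, DifferentiableAt ℂ (f n) y := fun n y hy =>
    (hf n).differentiableAt (hU.mem_nhds hy)
  have hcau : UniformCauchySeqOn (fun n => fderiv ℂ (f n)) atTop (ball x ρ) := by
    rw [Metric.uniformCauchySeqOn_iff]
    intro ε hε
    obtain ⟨N, hN⟩ := (Metric.uniformCauchySeqOn_iff.1 h.uniformCauchySeqOn) (ε * ρ / 2)
      (by positivity)
    refine ⟨N, fun m hm n hn y hy => ?_⟩
    have h1 : fderiv ℂ (f m) y - fderiv ℂ (f n) y = fderiv ℂ (f m - f n) y :=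
      (fderiv_sub (hd m y (hsub y hy (mem_closedBall_self hρ.le)))
        (hd n y (hsub y hy (mem_closedBall_self hρ.le)))).symm
    rw [dist_eq_norm, h1]
    have h2 := norm_fderiv_le (f := f m - f n) (x := y) (C := ε * ρ / 2) hρ
      (fun w hw => (hd m w (hsub y hy hw)).sub (hd n w (hsub y hy hw)))
      (fun w hw => by
        have := hN m hm n hn w (hsub y hy hw)
        rw [dist_eq_norm] at this
        exact this.le)
    refine h2.trans_lt ?_
    have : ε * ρ / 2 / ρ = ε / 2 := by field_simp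
    rw [this]; linarith
  have hlim : ∀ y ∈ ball x ρ, ∃ L, Tendsto (fun n => fderiv ℂ (f n) y) atTop (𝓝 L) :=
    fun y hy => cauchySeq_tendsto_of_complete (hcau.cauchySeq hy)
  choose! g' hg' using hlim
  have hunif : TendstoUniformlyOn (fun n => fderiv ℂ (f n)) g' atTop (ball x ρ) :=
    hcau.tendstoUniformlyOn_of_tendsto hg'
  have hxU : x ∈ ball x ρ := mem_ball_self hρ
  exact (hasFDerivAt_of_tendstoUniformlyOn (𝕜 := ℂ) isOpen_ball hunif
    (fun n y hy => (hd n y (hsub y hy (mem_closedBall_self hρ.le))).hasFDerivAt)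
    (fun y hy => h.tendsto_at (hsub y hy (mem_closedBall_self hρ.le))) hxU).differentiableAt

/-- scaling of the time variable -/
noncomputable def scl (E : Type*) [NormedAddCommGroup E] [NormedSpace ℂ E] (t : ℝ) :
    E × ℂ →L[ℂ] E × ℂ :=
  (ContinuousLinearMap.fst ℂ E ℂ).prod ((t : ℂ) • ContinuousLinearMap.snd ℂ E ℂ)

lemma scl_apply (t : ℝ) (p : E × ℂ) : scl E t p = (p.1, (t : ℂ) * p.2) := rfl

lemma continuous_scl : Continuous (scl E) := by
  unfold scl
  exact (ContinuousLinearMap.prodₗᵢ ℂ).continuous.comp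
    (continuous_const.prodMk (by fun_prop))

lemma norm_scl_le {t : ℝ} (ht : t ∈ Icc (0 : ℝ) 1) : ‖scl E t‖ ≤ 1 := by
  refine ContinuousLinearMap.opNorm_le_bound _ zero_le_one fun p => ?_
  rw [scl_apply, one_mul, Prod.norm_def, Prod.norm_def]
  refine max_le (le_max_left _ _) (le_trans ?_ (le_max_right _ _))
  rw [norm_mul, Complex.norm_real, Real.norm_of_nonneg ht.1]
  exact mul_le_of_le_one_left (norm_nonneg _) ht.2

lemma scl_mem {x₀ : E} {r ε : ℝ} {p : E × ℂ} (hp : p ∈ ball x₀ r ×ˢ ball (0 : ℂ) ε) {t : ℝ}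
    (ht : t ∈ Icc (0 : ℝ) 1) : scl E t p ∈ ball x₀ r ×ˢ ball (0 : ℂ) ε := by
  refine ⟨hp.1, ?_⟩
  have h2 := hp.2
  rw [mem_ball_zero_iff] at h2 ⊢
  rw [scl_apply, norm_mul, Complex.norm_real, Real.norm_of_nonneg ht.1]
  exact (mul_le_of_le_one_left (norm_nonneg _) ht.2).trans_lt h2

/-- Integrals of holomorphic functions are holomorphic. -/
lemma differentiableOn_integral [FiniteDimensional ℂ E] [CompleteSpace F] {ψ : E × ℂ → F} {x₀ : E}
    {r ε : ℝ} (hψ : DifferentiableOn ℂ ψ (ball x₀ r ×ˢ ball (0 : ℂ) ε)) :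
    DifferentiableOn ℂ (fun p => ∫ t in (0 : ℝ)..1, ψ (scl E t p))
      (ball x₀ r ×ˢ ball (0 : ℂ) ε) := by
  set Ω : Set (E × ℂ) := ball x₀ r ×ˢ ball (0 : ℂ) ε with hΩ
  have hΩo : IsOpen Ω := isOpen_ball.prod isOpen_ball
  have hcd : ContinuousOn (fderiv ℂ ψ) Ω := continuousOn_fderiv hΩo hψ
  intro p₀ hp₀
  refine DifferentiableAt.differentiableWithinAt ?_
  have : ProperSpace E := FiniteDimensional.proper ℂ E
  -- a compact neighbourhood stable under the scalings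
  set ρ1 := (r - ‖p₀.1 - x₀‖) / 2 with hρ1
  set η := (ε - ‖p₀.2‖) / 2 with hη
  have h1 := hp₀.1
  have h2 := hp₀.2
  rw [mem_ball, dist_eq_norm] at h1
  rw [mem_ball_zero_iff] at h2
  have hρ1' : 0 < ρ1 := by rw [hρ1]; linarith
  have hη' : 0 < η := by rw [hη]; linarith
  set K : Set (E × ℂ) := closedBall p₀.1 ρ1 ×ˢ closedBall (0 : ℂ) (‖p₀.2‖ + η) with hK
  have hKc : IsCompact K := (isCompact_closedBall _ _).prod (isCompact_closedBall _ _)
  have hKΩ : K ⊆ Ω := by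
    rintro ⟨a, b⟩ ⟨ha, hb⟩
    refine ⟨?_, ?_⟩
    · rw [mem_closedBall, dist_eq_norm] at ha
      rw [mem_ball, dist_eq_norm]
      have : ‖a - x₀‖ ≤ ‖a - p₀.1‖ + ‖p₀.1 - x₀‖ := by
        have := norm_add_le (a - p₀.1) (p₀.1 - x₀)
        rwa [sub_add_sub_cancel] at this
      simp only at ha ⊢
      rw [hρ1] at ha
      linarith
    · rw [mem_closedBall_zero_iff] at hb
      rw [mem_ball_zero_iff]
      simp only at hb ⊢
      rw [hη] at hb
      linarith
  obtain ⟨C, hC⟩ := hKc.exists_bound_of_continuousOn (hcd.mono hKΩ)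
  set s : Set (E × ℂ) := ball p₀.1 ρ1 ×ˢ ball p₀.2 η with hs
  have hso : IsOpen s := isOpen_ball.prod isOpen_ball
  have hsK : ∀ p ∈ s, ∀ t ∈ Icc (0 : ℝ) 1, scl E t p ∈ K := by
    rintro p ⟨ha, hb⟩ t ht
    refine ⟨ball_subset_closedBall ha, ?_⟩
    rw [mem_ball, dist_eq_norm] at hb
    rw [mem_closedBall_zero_iff, scl_apply, norm_mul, Complex.norm_real, Real.norm_of_nonneg ht.1]
    refine (mul_le_of_le_one_left (norm_nonneg _) ht.2).trans ?_
    have := norm_add_le p₀.2 (p.2 - p₀.2)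
    rw [add_sub_cancel] at this
    linarith
  have hIoc : ∀ t ∈ uIoc (0 : ℝ) 1, t ∈ Icc (0 : ℝ) 1 := fun t ht => by
    rw [uIoc_of_le zero_le_one] at ht
    exact Ioc_subset_Icc_self ht
  have hcont : ∀ p ∈ Ω, ContinuousOn (fun t => ψ (scl E t p)) (Icc 0 1) := fun p hp =>
    hψ.continuousOn.comp (continuous_scl.clm_apply continuous_const).continuousOn
      (fun t ht => scl_mem hp ht)
  have hcont' : ∀ p ∈ Ω, ContinuousOn (fun t => (fderiv ℂ ψ (scl E t p)).comp (scl E t))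
      (Icc 0 1) := fun p hp =>
    (hcd.comp (continuous_scl.clm_apply continuous_const).continuousOn
      (fun t ht => scl_mem hp ht)).clm_comp continuous_scl.continuousOn
  have key := intervalIntegral.hasFDerivAt_integral_of_dominated_of_fderiv_le (𝕜 := ℂ)
    (μ := volume) (a := 0) (b := 1)
    (F := fun p t => ψ (scl E t p)) (F' := fun p t => (fderiv ℂ ψ (scl E t p)).comp (scl E t))
    (x₀ := p₀) (s := s) (bound := fun _ => C)
    (hso.mem_nhds ⟨mem_ball_self hρ1', mem_ball_self hη'⟩) ?_ ?_ ?_ ?_ ?_ ?_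
  · exact key.differentiableAt
  · filter_upwards [hΩo.mem_nhds hp₀] with p hp
    rw [uIoc_of_le zero_le_one]
    exact ((hcont p hp).mono Ioc_subset_Icc_self).aestronglyMeasurable measurableSet_Ioc
  · apply ContinuousOn.intervalIntegrable
    rw [uIcc_of_le zero_le_one]
    exact hcont p₀ hp₀
  · rw [uIoc_of_le zero_le_one]
    exact ((hcont' p₀ hp₀).mono Ioc_subset_Icc_self).aestronglyMeasurable measurableSet_Ioc
  · refine Eventually.of_forall fun t ht p hp => ?_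
    have ht' := hIoc t ht
    have hC' := hC _ (hsK p hp t ht')
    have hC0 : 0 ≤ C := (norm_nonneg _).trans hC'
    calc ‖(fderiv ℂ ψ (scl E t p)).comp (scl E t)‖ ≤ ‖fderiv ℂ ψ (scl E t p)‖ * ‖scl E t‖ :=
          ContinuousLinearMap.opNorm_comp_le _ _
      _ ≤ C * 1 := mul_le_mul hC' (norm_scl_le ht') (norm_nonneg _) hC0
      _ = C := mul_one C
  · exact intervalIntegrable_const
  · refine Eventually.of_forall fun t ht p hp => ?_
    have ht' := hIoc t ht
    have h3 : DifferentiableAt ℂ ψ (scl E t p) :=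
      hψ.differentiableAt (hΩo.mem_nhds (hKΩ (hsK p hp t ht')))
    exact h3.hasFDerivAt.comp p (scl E t).hasFDerivAt

/-- the Picard operator -/
noncomputable def pic (X : E → E) (φ : E × ℂ → E) (p : E × ℂ) : E :=
  p.1 + p.2 • ∫ t in (0 : ℝ)..1, X (φ (scl E t p))

/-- admissible functions -/
structure Adm (M : ℝ) (x₀ : E) (R ε : ℝ) (φ : E × ℂ → E) : Prop where
  diff : DifferentiableOn ℂ φ (ball x₀ (R / 2) ×ˢ ball (0 : ℂ) ε)
  bd : ∀ p ∈ ball x₀ (R / 2) ×ˢ ball (0 : ℂ) ε, ‖φ p - x₀‖ ≤ ‖p.1 - x₀‖ + ‖p.2‖ * M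

lemma Adm.mem {M : ℝ} {x₀ : E} {R ε : ℝ} (hM0 : 0 ≤ M) (hεM : ε * M ≤ R / 2) {φ : E × ℂ → E}
    (h : Adm M x₀ R ε φ) {p : E × ℂ} (hp : p ∈ ball x₀ (R / 2) ×ˢ ball (0 : ℂ) ε) :
    φ p ∈ ball x₀ R := by
  rw [mem_ball, dist_eq_norm]
  have h1 := hp.1
  have h2 := hp.2
  rw [mem_ball, dist_eq_norm] at h1
  rw [mem_ball_zero_iff] at h2
  have h3 : ‖p.2‖ * M ≤ ε * M := mul_le_mul_of_nonneg_right h2.le hM0
  linarith [h.bd p hp]

lemma pic_adm [FiniteDimensional ℂ E] {X : E → E} {M : ℝ} {x₀ : E} {R ε : ℝ} (hM0 : 0 ≤ M)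
    (hεM : ε * M ≤ R / 2) (hX : DifferentiableOn ℂ X (ball x₀ R))
    (hM : ∀ y ∈ ball x₀ R, ‖X y‖ ≤ M) {φ : E × ℂ → E} (h : Adm M x₀ R ε φ) :
    Adm M x₀ R ε (pic X φ) := by
  have : CompleteSpace E := FiniteDimensional.complete ℂ E
  constructor
  · have h1 : DifferentiableOn ℂ (fun p => X (φ p)) (ball x₀ (R / 2) ×ˢ ball (0 : ℂ) ε) :=
      hX.comp h.diff (fun p hp => h.mem hM0 hεM hp)
    exact differentiable_fst.differentiableOn.add
      (differentiable_snd.differentiableOn.smul (differentiableOn_integral h1))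
  · intro p hp
    have h2 : ‖∫ t in (0 : ℝ)..1, X (φ (scl E t p))‖ ≤ M := by
      have := intervalIntegral.norm_integral_le_of_norm_le_const (a := (0 : ℝ)) (b := 1) (C := M)
        (f := fun t => X (φ (scl E t p))) (fun t ht => by
          rw [uIoc_of_le zero_le_one] at ht
          exact hM _ (h.mem hM0 hεM (scl_mem hp (Ioc_subset_Icc_self ht))))
      simpa using this
    unfold pic
    calc ‖p.1 + p.2 • (∫ t in (0 : ℝ)..1, X (φ (scl E t p))) - x₀‖
        = ‖(p.1 - x₀) + p.2 • ∫ t in (0 : ℝ)..1, X (φ (scl E t p))‖ := by congr 1; abel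
      _ ≤ ‖p.1 - x₀‖ + ‖p.2‖ * ‖∫ t in (0 : ℝ)..1, X (φ (scl E t p))‖ := by
          rw [← norm_smul]; exact norm_add_le _ _
      _ ≤ _ := by gcongr

/-- contraction -/
lemma pic_contr [FiniteDimensional ℂ E] {X : E → E} {M K : ℝ} {x₀ : E} {R ε : ℝ} (hM0 : 0 ≤ M)
    (hK0 : 0 ≤ K) (hεM : ε * M ≤ R / 2) (hεK : ε * K ≤ 1 / 2)
    (hX : DifferentiableOn ℂ X (ball x₀ R))
    (hK : ∀ y ∈ ball x₀ R, ∀ y' ∈ ball x₀ R, ‖X y - X y'‖ ≤ K * ‖y - y'‖)
    {φ ψ : E × ℂ → E} (h : Adm M x₀ R ε φ) (h' : Adm M x₀ R ε ψ) {d : ℝ}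
    (hd : ∀ p ∈ ball x₀ (R / 2) ×ˢ ball (0 : ℂ) ε, ‖φ p - ψ p‖ ≤ d) :
    ∀ p ∈ ball x₀ (R / 2) ×ˢ ball (0 : ℂ) ε, ‖pic X φ p - pic X ψ p‖ ≤ d / 2 := by
  intro p hp
  have hd0 : 0 ≤ d := (norm_nonneg _).trans (hd p hp)
  have hii : ∀ χ : E × ℂ → E, Adm M x₀ R ε χ →
      IntervalIntegrable (fun t => X (χ (scl E t p))) volume 0 1 := by
    intro χ hχ
    apply ContinuousOn.intervalIntegrable
    rw [uIcc_of_le zero_le_one]
    exact (hX.continuousOn.comp hχ.diff.continuousOn (fun q hq => hχ.mem hM0 hεM hq)).comp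
      (continuous_scl.clm_apply continuous_const).continuousOn (fun t ht => scl_mem hp ht)
  have e : pic X φ p - pic X ψ p =
      p.2 • ∫ t in (0 : ℝ)..1, (X (φ (scl E t p)) - X (ψ (scl E t p))) := by
    rw [intervalIntegral.integral_sub (hii φ h) (hii ψ h'), smul_sub]
    unfold pic
    abel
  rw [e, norm_smul]
  have h2 : ‖∫ t in (0 : ℝ)..1, (X (φ (scl E t p)) - X (ψ (scl E t p)))‖ ≤ K * d := by
    have := intervalIntegral.norm_integral_le_of_norm_le_const (a := (0 : ℝ)) (b := 1) (C := K * d)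
      (f := fun t => X (φ (scl E t p)) - X (ψ (scl E t p))) (fun t ht => by
        rw [uIoc_of_le zero_le_one] at ht
        have hq := scl_mem hp (Ioc_subset_Icc_self ht)
        exact (hK _ (h.mem hM0 hεM hq) _ (h'.mem hM0 hεM hq)).trans
          (mul_le_mul_of_nonneg_left (hd _ hq) hK0))
    simpa using this
  have h3 := hp.2
  rw [mem_ball_zero_iff] at h3
  calc ‖p.2‖ * ‖∫ t in (0 : ℝ)..1, (X (φ (scl E t p)) - X (ψ (scl E t p)))‖
      ≤ ε * (K * d) := mul_le_mul h3.le h2 (norm_nonneg _) ((norm_nonneg _).trans h3.le)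
    _ = (ε * K) * d := by ring
    _ ≤ 1 / 2 * d := mul_le_mul_of_nonneg_right hεK hd0
    _ = d / 2 := by ring

/-- Existence of the holomorphic local flow (integral equation). -/
theorem exists_pic_fixed [FiniteDimensional ℂ E] {X : E → E} {M K : ℝ} {x₀ : E} {R ε : ℝ}
    (hM0 : 0 ≤ M) (hK0 : 0 ≤ K) (hεM : ε * M ≤ R / 2) (hεK : ε * K ≤ 1 / 2)
    (hX : DifferentiableOn ℂ X (ball x₀ R)) (hM : ∀ y ∈ ball x₀ R, ‖X y‖ ≤ M)
    (hK : ∀ y ∈ ball x₀ R, ∀ y' ∈ ball x₀ R, ‖X y - X y'‖ ≤ K * ‖y - y'‖) :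
    ∃ φ : E × ℂ → E, Adm M x₀ R ε φ ∧
      ∀ p ∈ ball x₀ (R / 2) ×ˢ ball (0 : ℂ) ε, φ p = pic X φ p := by
  have : CompleteSpace E := FiniteDimensional.complete ℂ E
  set Ω : Set (E × ℂ) := ball x₀ (R / 2) ×ˢ ball (0 : ℂ) ε with hΩ
  have hΩo : IsOpen Ω := isOpen_ball.prod isOpen_ball
  set Φ : ℕ → E × ℂ → E := fun n => (pic X)^[n] (fun p => p.1) with hΦ
  have hsucc : ∀ n, Φ (n + 1) = pic X (Φ n) := fun n => Function.iterate_succ_apply' _ _ _
  have hadm : ∀ n, Adm M x₀ R ε (Φ n) := by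
    intro n
    induction n with
    | zero =>
      refine ⟨differentiable_fst.differentiableOn, fun p _ => ?_⟩
      exact le_add_of_nonneg_right (by positivity)
    | succ n ih => rw [hsucc]; exact pic_adm hM0 hεM hX hM ih
  have hdist : ∀ n, ∀ p ∈ Ω, ‖Φ (n + 1) p - Φ n p‖ ≤ 2 * R / 2 ^ n := by
    intro n
    induction n with
    | zero =>
      intro p hp
      have h1 := (hadm 1).mem hM0 hεM hp
      have h2 := (hadm 0).mem hM0 hεM hp
      rw [mem_ball] at h1 h2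
      rw [← dist_eq_norm, pow_zero, div_one]
      have := dist_triangle_right (Φ (0 + 1) p) (Φ 0 p) x₀
      simp only [zero_add] at this ⊢
      linarith
    | succ n ih =>
      have := pic_contr hM0 hK0 hεM hεK hX hK (hadm (n + 1)) (hadm n) ih
      intro p hp
      have h1 := this p hp
      rw [← hsucc, ← hsucc] at h1
      refine h1.trans (le_of_eq ?_)
      rw [pow_succ]; ring
  have hgeo : ∀ p ∈ Ω, ∀ n, dist (Φ n p) (Φ (n + 1) p) ≤ (4 * R) / 2 / 2 ^ n := by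
    intro p hp n
    rw [dist_comm, dist_eq_norm]
    refine (hdist n p hp).trans (le_of_eq ?_)
    ring
  have hlim : ∀ p ∈ Ω, ∃ y, Tendsto (fun n => Φ n p) atTop (𝓝 y) := fun p hp =>
    cauchySeq_tendsto_of_complete (cauchySeq_of_le_geometric_two (hgeo p hp))
  choose! φ hφ using hlim
  have hφd : ∀ p ∈ Ω, ∀ n, dist (Φ n p) (φ p) ≤ (4 * R) / 2 ^ n := fun p hp n =>
    dist_le_of_le_geometric_two_of_tendsto (hgeo p hp) (hφ p hp) n
  have hpow : Tendsto (fun n : ℕ => (4 * R) / 2 ^ n) atTop (𝓝 0) := by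
    have h1 : Tendsto (fun n : ℕ => (4 * R) * ((1 : ℝ) / 2) ^ n) atTop (𝓝 (4 * R * 0)) :=
      (tendsto_pow_atTop_nhds_zero_of_lt_one (by norm_num) (by norm_num)).const_mul _
    rw [mul_zero] at h1
    refine h1.congr fun n => ?_
    rw [div_pow, one_pow, mul_one_div]
  have hunif : TendstoUniformlyOn Φ φ atTop Ω := by
    rw [Metric.tendstoUniformlyOn_iff]
    intro δ hδ
    filter_upwards [hpow.eventually (gt_mem_nhds hδ)] with n hn p hp
    rw [dist_comm]
    exact (hφd p hp n).trans_lt hn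
  have hφadm : Adm M x₀ R ε φ := by
    refine ⟨differentiableOn_of_tendstoUniformlyOn hΩo (fun n => (hadm n).diff) hunif, ?_⟩
    intro p hp
    have h1 : Tendsto (fun n => ‖Φ n p - x₀‖) atTop (𝓝 ‖φ p - x₀‖) :=
      ((hφ p hp).sub_const x₀).norm
    exact le_of_tendsto h1 (Eventually.of_forall fun n => (hadm n).bd p hp)
  refine ⟨φ, hφadm, fun p hp => ?_⟩
  have h1 : Tendsto (fun n => Φ (n + 1) p) atTop (𝓝 (φ p)) := (hφ p hp).comp (tendsto_add_atTop_nat 1)
  have h2 : Tendsto (fun n => Φ (n + 1) p) atTop (𝓝 (pic X φ p)) := by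
    rw [tendsto_iff_dist_tendsto_zero]
    have h3 : ∀ n, dist (Φ (n + 1) p) (pic X φ p) ≤ (4 * R) / 2 ^ n / 2 := by
      intro n
      rw [hsucc, dist_eq_norm]
      exact pic_contr hM0 hK0 hεM hεK hX hK (hadm n) hφadm
        (fun q hq => by rw [← dist_eq_norm]; exact hφd q hq n) p hp
    have h4 : Tendsto (fun n : ℕ => (4 * R) / 2 ^ n / 2) atTop (𝓝 0) := by
      have := hpow.div_const 2
      rwa [zero_div] at this
    exact squeeze_zero (fun _ => dist_nonneg) h3 h4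
  exact tendsto_nhds_unique h1 h2

end Pool.Agent.H11.FB
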