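import Pool.Agent.H11.FB.Flow

/-!
# The holomorphic flow-box theorem
-/

open MeasureTheory Set Metric Filter Topology
open scoped ContDiff Real ENNReal NNReal

namespace Pool.Agent.H11.FB

open Pool.Agent.H64.Nev

variable {E : Type*} [NormedAddCommGroup E] [NormedSpace ℂ E]

lemma flow_time_ne [FiniteDimensional ℂ E] {X : E → E} {M : ℝ} {x₀ : E} {R ε : ℝ}
    (hM0 : 0 ≤ M) (hεM : ε * M ≤ R / 2) (hX : DifferentiableOn ℂ X (ball x₀ R))
    {φ : E × ℂ → E} (hφ : Adm M x₀ R ε φ)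
    (hfix : ∀ p ∈ ball x₀ (R / 2) ×ˢ ball (0 : ℂ) ε, φ p = pic X φ p)
    {p : E × ℂ} (hp : p ∈ ball x₀ (R / 2) ×ˢ ball (0 : ℂ) ε) (hp0 : p.2 ≠ 0) :
    fderiv ℂ φ p (0, 1) = X (φ p) := by
  have : CompleteSpace E := FiniteDimensional.complete ℂ E
  set Ω : Set (E × ℂ) := ball x₀ (R / 2) ×ˢ ball (0 : ℂ) ε with hΩ
  have hΩo : IsOpen Ω := isOpen_ball.prod isOpen_ball
  have hXφ : ContinuousOn (fun q => X (φ q)) Ω :=
    hX.continuousOn.comp hφ.diff.continuousOn (fun q hq => hφ.mem hM0 hεM hq)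
  have hs1 : scl E 1 p = p := by
    rw [scl_apply]; ext <;> simp
  have hsc : Continuous (fun u : ℝ => scl E u p) := continuous_scl.clm_apply continuous_const
  set V : Set ℝ := (fun u : ℝ => scl E u p) ⁻¹' Ω with hV
  have hVo : IsOpen V := hΩo.preimage hsc
  have hIV : Icc (0 : ℝ) 1 ⊆ V := fun u hu => scl_mem hp hu
  set h : ℝ → E := fun w => X (φ (scl E w p)) with hh
  have hhc : ContinuousOn h V := hXφ.comp hsc.continuousOn (fun u hu => hu)
  have h1V : (1 : ℝ) ∈ V := hIV ⟨zero_le_one, le_rfl⟩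
  -- the integral equation along the ray
  have hev : ∀ᶠ u : ℝ in 𝓝 1, φ (scl E u p) = p.1 + p.2 • ∫ w in (0 : ℝ)..u, h w := by
    filter_upwards [hVo.mem_nhds h1V, lt_mem_nhds (zero_lt_one : (0 : ℝ) < 1)] with u hu hu0
    rw [hfix _ hu]
    unfold pic
    have e1 : ∀ t : ℝ, X (φ (scl E t (scl E u p))) = h (t * u) := by
      intro t
      have : scl E t (scl E u p) = scl E (t * u) p := by
        rw [scl_apply, scl_apply, scl_apply]
        ext
        · rfl
        · simp only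
          push_cast
          ring
      rw [this]
    simp_rw [e1]
    have e2 := intervalIntegral.smul_integral_comp_mul_right (a := (0 : ℝ)) (b := 1) h u
    rw [zero_mul, one_mul] at e2
    rw [← e2]
    have e3 : (scl E u p).2 = (u : ℂ) * p.2 := rfl
    have e4 : (scl E u p).1 = p.1 := rfl
    rw [e3, e4, mul_comm, mul_smul]
    rfl
  have hd1 : HasDerivAt (fun u : ℝ => ∫ w in (0 : ℝ)..u, h w) (h 1) 1 := by
    refine intervalIntegral.integral_hasDerivAt_right ?_ ?_ ?_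
    · apply ContinuousOn.intervalIntegrable
      rw [uIcc_of_le zero_le_one]
      exact hhc.mono hIV
    · exact hhc.stronglyMeasurableAtFilter hVo 1 h1V
    · exact hhc.continuousAt (hVo.mem_nhds h1V)
  have hd2 : HasDerivAt (fun u : ℝ => φ (scl E u p)) (p.2 • h 1) 1 :=
    ((hd1.const_smul p.2).const_add p.1).congr_of_eventuallyEq hev
  have hd3 : HasDerivAt (fun u : ℝ => scl E u p) ((0 : E), p.2) 1 := by
    have h1 : HasDerivAt (fun u : ℝ => ((u : ℂ) * p.2)) p.2 1 := by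
      simpa using (Complex.ofRealCLM.hasDerivAt (x := (1 : ℝ))).mul_const p.2
    exact (hasDerivAt_const (1 : ℝ) p.1).prodMk h1
  have hφd : DifferentiableAt ℂ φ p := hφ.diff.differentiableAt (hΩo.mem_nhds hp)
  have hd4 : HasDerivAt (fun u : ℝ => φ (scl E u p)) (fderiv ℂ φ p ((0 : E), p.2)) 1 := by
    have h1 : HasFDerivAt φ ((fderiv ℂ φ p).restrictScalars ℝ) (scl E 1 p) := by
      rw [hs1]
      exact hφd.hasFDerivAt.restrictScalars ℝ
    exact h1.comp_hasDerivAt (1 : ℝ) hd3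
  have h5 := hd4.unique hd2
  have h6 : ((0 : E), p.2) = p.2 • ((0 : E), (1 : ℂ)) := by ext <;> simp
  rw [h6, map_smul] at h5
  have h7 : h 1 = X (φ p) := by rw [hh]; simp only; rw [hs1]
  rw [h7] at h5
  exact smul_right_injective E hp0 h5

lemma flow_time [FiniteDimensional ℂ E] {X : E → E} {M : ℝ} {x₀ : E} {R ε : ℝ}
    (hM0 : 0 ≤ M) (hεM : ε * M ≤ R / 2) (hX : DifferentiableOn ℂ X (ball x₀ R))
    {φ : E × ℂ → E} (hφ : Adm M x₀ R ε φ)
    (hfix : ∀ p ∈ ball x₀ (R / 2) ×ˢ ball (0 : ℂ) ε, φ p = pic X φ p)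
    {p : E × ℂ} (hp : p ∈ ball x₀ (R / 2) ×ˢ ball (0 : ℂ) ε) :
    fderiv ℂ φ p (0, 1) = X (φ p) := by
  have : CompleteSpace E := FiniteDimensional.complete ℂ E
  rcases ne_or_eq p.2 0 with hp0 | hp0
  · exact flow_time_ne hM0 hεM hX hφ hfix hp hp0
  set Ω : Set (E × ℂ) := ball x₀ (R / 2) ×ˢ ball (0 : ℂ) ε with hΩ
  have hΩo : IsOpen Ω := isOpen_ball.prod isOpen_ball
  have hXφ : ContinuousOn (fun q => X (φ q)) Ω :=
    hX.continuousOn.comp hφ.diff.continuousOn (fun q hq => hφ.mem hM0 hεM hq)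
  have hfd : ContinuousOn (fun q => fderiv ℂ φ q (0, 1)) Ω :=
    (continuousOn_fderiv hΩo hφ.diff).clm_apply continuousOn_const
  have hline : Tendsto (fun z : ℂ => (p.1, z)) (𝓝[≠] 0) (𝓝 p) := by
    have h1 : Continuous (fun z : ℂ => (p.1, z)) := by fun_prop
    have h2 : (p.1, (0 : ℂ)) = p := by ext <;> simp [hp0]
    have h3 := h1.tendsto 0
    rw [h2] at h3
    exact h3.mono_left nhdsWithin_le_nhds
  have h1 := (hXφ.continuousAt (hΩo.mem_nhds hp)).tendsto.comp hline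
  have h2 := (hfd.continuousAt (hΩo.mem_nhds hp)).tendsto.comp hline
  refine tendsto_nhds_unique h2 (h1.congr' ?_)
  filter_upwards [hline.eventually (hΩo.mem_nhds hp), self_mem_nhdsWithin] with z hz hz0
  exact (flow_time_ne hM0 hεM hX hφ hfix hz hz0).symm

/-- The holomorphic flow-box theorem. -/
theorem exists_flowBox [FiniteDimensional ℂ E] {X : E → E} {s : Set E} (hs : IsOpen s)
    (hX : DifferentiableOn ℂ X s) {x₀ : E} (hx : x₀ ∈ s) (hX0 : X x₀ ≠ 0) :
    ∃ e : OpenPartialHomeomorph E E, x₀ ∈ e.source ∧ e.source ⊆ s ∧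
      ContDiffOn ℂ ω e e.source ∧ ContDiffOn ℂ ω e.symm e.target ∧
      ∃ v : E, v ≠ 0 ∧ ∀ y ∈ e.source, fderiv ℂ e y (X y) = v := by
  have : CompleteSpace E := FiniteDimensional.complete ℂ E
  have : ProperSpace E := FiniteDimensional.proper ℂ E
  -- the constants
  obtain ⟨R', hR', hRs⟩ := Metric.isOpen_iff.1 hs x₀ hx
  set R := R' / 2 with hRdef
  have hR : 0 < R := by positivity
  have hcb : closedBall x₀ R ⊆ s := (closedBall_subset_ball (by rw [hRdef]; linarith)).trans hRs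
  have hXb : DifferentiableOn ℂ X (ball x₀ R) := hX.mono (ball_subset_closedBall.trans hcb)
  obtain ⟨M, hM⟩ := (isCompact_closedBall x₀ R).exists_bound_of_continuousOn
    (hX.continuousOn.mono hcb)
  obtain ⟨K, hK⟩ := (isCompact_closedBall x₀ R).exists_bound_of_continuousOn
    ((continuousOn_fderiv hs hX).mono hcb)
  have hM0 : 0 ≤ M := (norm_nonneg _).trans (hM x₀ (mem_closedBall_self hR.le))
  have hK0 : 0 ≤ K := (norm_nonneg _).trans (hK x₀ (mem_closedBall_self hR.le))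
  have hLip : ∀ y ∈ ball x₀ R, ∀ y' ∈ ball x₀ R, ‖X y - X y'‖ ≤ K * ‖y - y'‖ := by
    intro y hy y' hy'
    exact (convex_ball x₀ R).norm_image_sub_le_of_norm_fderiv_le (𝕜 := ℂ)
      (fun z hz => hXb.differentiableAt (isOpen_ball.mem_nhds hz))
      (fun z hz => hK z (ball_subset_closedBall hz)) hy' hy
  set ε := min (R / (2 * (M + 1))) (1 / (2 * (K + 1))) with hε
  have hε0 : 0 < ε := lt_min (by positivity) (by positivity)
  have hεM : ε * M ≤ R / 2 := by
    have h1 : ε ≤ R / (2 * (M + 1)) := min_le_left _ _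
    calc ε * M ≤ R / (2 * (M + 1)) * (M + 1) := by gcongr; linarith
      _ = R / 2 := by field_simp
  have hεK : ε * K ≤ 1 / 2 := by
    have h1 : ε ≤ 1 / (2 * (K + 1)) := min_le_right _ _
    calc ε * K ≤ 1 / (2 * (K + 1)) * (K + 1) := by gcongr; linarith
      _ = 1 / 2 := by field_simp
  obtain ⟨φ, hφ, hfix⟩ := exists_pic_fixed hM0 hK0 hεM hεK hXb
    (fun y hy => hM y (ball_subset_closedBall hy)) hLip
  set Ω : Set (E × ℂ) := ball x₀ (R / 2) ×ˢ ball (0 : ℂ) ε with hΩ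
  have hΩo : IsOpen Ω := isOpen_ball.prod isOpen_ball
  have hφ0 : ∀ x ∈ ball x₀ (R / 2), φ (x, 0) = x := by
    intro x hx
    rw [hfix (x, 0) ⟨hx, mem_ball_self hε0⟩]
    unfold pic
    simp
  -- the straightening
  set v := X x₀ with hv
  obtain ⟨ℓ, hℓ⟩ : ∃ ℓ : E →L[ℂ] ℂ, ℓ v = 1 := by
    obtain ⟨g, -, hg⟩ := exists_dual_vector ℂ v (norm_ne_zero_iff.2 hX0)
    have hvn : (‖v‖ : ℂ) ≠ 0 := by
      rw [Ne, Complex.ofReal_eq_zero]; exact norm_ne_zero_iff.2 hX0
    refine ⟨(‖v‖ : ℂ)⁻¹ • g, ?_⟩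
    rw [smul_apply, hg, smul_eq_mul]
    exact inv_mul_cancel₀ hvn
  set A : E →L[ℂ] E × ℂ :=
    (ContinuousLinearMap.id ℂ E - ℓ.smulRight v).prod ℓ with hA
  have hAy : ∀ y, A y = (y - ℓ y • v, ℓ y) := fun y => by simp [hA]
  have hAv : A v = (0, 1) := by rw [hAy, hℓ, one_smul, sub_self]
  set T : E → E × ℂ := fun y => (x₀, 0) + A y with hT
  have hT0 : T 0 = (x₀, 0) := by rw [hT]; simp
  have hTd : ∀ y, HasFDerivAt T A y := fun y => A.hasFDerivAt.const_add _
  have hTc : Continuous T := by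
    rw [hT]; exact continuous_const.add A.continuous
  set N : Set E := T ⁻¹' Ω with hN
  have hNo : IsOpen N := hΩo.preimage hTc
  have h0N : (0 : E) ∈ N := by
    change T 0 ∈ Ω
    rw [hT0]
    exact ⟨mem_ball_self (by positivity), mem_ball_self hε0⟩
  set Ψ : E → E := fun y => φ (T y) with hΨ
  have hφd : ∀ p ∈ Ω, DifferentiableAt ℂ φ p := fun p hp =>
    hφ.diff.differentiableAt (hΩo.mem_nhds hp)
  have hΨd : ∀ y ∈ N, HasFDerivAt Ψ ((fderiv ℂ φ (T y)).comp A) y := fun y hy =>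
    (hφd (T y) hy).hasFDerivAt.comp y (hTd y)
  have hΨv : ∀ y ∈ N, (fderiv ℂ φ (T y)).comp A v = X (Ψ y) := by
    intro y hy
    rw [ContinuousLinearMap.comp_apply, hAv]
    exact flow_time hM0 hεM hXb hφ hfix hy
  have hΨ0 : Ψ 0 = x₀ := by
    rw [hΨ]; simp only; rw [hT0]
    exact hφ0 x₀ (mem_ball_self (by positivity))
  have hD0 : (fderiv ℂ φ (T 0)).comp A = ContinuousLinearMap.id ℂ E := by
    have h1 : ∀ h : E, fderiv ℂ φ (x₀, 0) (h, 0) = h := by
      intro h
      have e1 : HasFDerivAt (fun x : E => φ (x, 0))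
          ((fderiv ℂ φ (x₀, 0)).comp (ContinuousLinearMap.inl ℂ E ℂ)) x₀ := by
        have h2 : HasFDerivAt (fun x : E => (x, (0 : ℂ))) (ContinuousLinearMap.inl ℂ E ℂ) x₀ :=
          (ContinuousLinearMap.inl ℂ E ℂ).hasFDerivAt
        exact (hφd (x₀, 0) (by rw [← hT0]; exact h0N)).hasFDerivAt.comp x₀ h2
      have e2 : HasFDerivAt (fun x : E => φ (x, 0)) (ContinuousLinearMap.id ℂ E) x₀ := by
        refine (hasFDerivAt_id x₀).congr_of_eventuallyEq ?_
        filter_upwards [isOpen_ball.mem_nhds (mem_ball_self (x := x₀) (by positivity : 0 < R / 2))]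
          with x hx using hφ0 x hx
      have e3 := congrArg (fun L : E →L[ℂ] E => L h) (e1.unique e2)
      simpa using e3
    ext y
    rw [ContinuousLinearMap.comp_apply, hAy, hT0]
    have h2 : (y - ℓ y • v, ℓ y) = (y - ℓ y • v, (0 : ℂ)) + ℓ y • ((0 : E), (1 : ℂ)) := by
      ext <;> simp
    rw [h2, map_add, map_smul, h1]
    have h3 := flow_time hM0 hεM hXb hφ hfix (p := (x₀, 0)) (by rw [← hT0]; exact h0N)
    rw [h3, hφ0 x₀ (mem_ball_self (by positivity)), ← hv]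
    simp
  have hΨan : ∀ y ∈ N, ContDiffAt ℂ ω Ψ y := fun y hy =>
    (analyticAt_of_differentiableOn hNo
      (fun z hz => (hΨd z hz).differentiableAt.differentiableWithinAt) hy).contDiffAt
  have hd0 : HasFDerivAt Ψ ((ContinuousLinearEquiv.refl ℂ E : E ≃L[ℂ] E) : E →L[ℂ] E) 0 := by
    have := hΨd 0 h0N
    rw [hD0] at this
    exact this
  have hn : (ω : WithTop ℕ∞) ≠ 0 := by simp
  set H := (hΨan 0 h0N).toOpenPartialHomeomorph Ψ hd0 hn with hH
  have hHc : (H : E → E) = Ψ := (hΨan 0 h0N).toOpenPartialHomeomorph_coe hd0 hn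
  have h0s : (0 : E) ∈ H.source := (hΨan 0 h0N).mem_toOpenPartialHomeomorph_source hd0 hn
  have hxt : x₀ ∈ H.target := by
    have := (hΨan 0 h0N).image_mem_toOpenPartialHomeomorph_target hd0 hn
    rwa [hΨ0] at this
  have hHx : H.symm x₀ = 0 := by
    have := H.left_inv h0s
    rwa [hHc, hΨ0] at this
  have hsymm : ContDiffAt ℂ ω H.symm x₀ := by
    have := (hΨan 0 h0N).to_localInverse hd0 hn
    rw [hΨ0] at this
    exact this
  have hev : ∀ᶠ y in 𝓝 x₀, y ∈ s ∧ ContDiffAt ℂ ω H.symm y ∧ H.symm y ∈ N := by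
    have hsx : ∀ᶠ y in 𝓝 x₀, y ∈ s := hs.mem_nhds hx
    refine hsx.and ((hsymm.eventually (by simp)).and ?_)
    have hc : ContinuousAt H.symm x₀ := H.symm.continuousAt hxt
    have := hc.tendsto.eventually (hNo.mem_nhds (by rw [hHx]; exact h0N))
    exact this
  obtain ⟨O, hO, hOo, hxO⟩ := _root_.eventually_nhds_iff.1 hev
  set e := H.symm.restrOpen O hOo with he
  have hes : e.source = H.target ∩ O := by
    rw [he, OpenPartialHomeomorph.restrOpen_source]; rfl
  have hec : (e : E → E) = H.symm := rfl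
  have hesc : (e.symm : E → E) = Ψ := by rw [← hHc]; rfl
  refine ⟨e, ?_, ?_, ?_, ?_, v, hX0, ?_⟩
  · rw [hes]; exact ⟨hxt, hxO⟩
  · rw [hes]; exact fun y hy => (hO y hy.2).1
  · intro y hy
    rw [hes] at hy
    rw [hec]
    exact (hO y hy.2).2.1.contDiffWithinAt
  · intro z hz
    have h1 : e.symm z ∈ e.source := e.map_target hz
    have h2 : e (e.symm z) = z := e.right_inv hz
    rw [hesc]
    rw [hes] at h1
    have h3 := (hO _ h1.2).2.2
    rw [← hec, h2] at h3
    exact (hΨan z h3).contDiffWithinAt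
  · intro y hy
    rw [hes] at hy
    obtain ⟨hyt, hyO⟩ := hy
    obtain ⟨-, hcd, hyN⟩ := hO y hyO
    set y' := H.symm y with hy'
    have hy's : y' ∈ H.source := H.symm.map_source hyt
    have hΨy' : Ψ y' = y := by
      rw [← hHc]; exact H.right_inv hyt
    have h1 : HasFDerivAt (H.symm ∘ Ψ)
        ((fderiv ℂ H.symm (Ψ y')).comp ((fderiv ℂ φ (T y')).comp A)) y' := by
      have h2 : DifferentiableAt ℂ H.symm (Ψ y') := by
        rw [hΨy']
        exact hcd.differentiableAt (by simp)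
      exact h2.hasFDerivAt.comp y' (hΨd y' hyN)
    have h3 : HasFDerivAt (H.symm ∘ Ψ) (ContinuousLinearMap.id ℂ E) y' := by
      refine (hasFDerivAt_id y').congr_of_eventuallyEq ?_
      filter_upwards [H.open_source.mem_nhds hy's] with z hz
      rw [Function.comp_apply, ← hHc]
      exact H.left_inv hz
    have h4 := congrArg (fun L : E →L[ℂ] E => L v) (h1.unique h3)
    simp only [ContinuousLinearMap.comp_apply, ContinuousLinearMap.id_apply] at h4
    rw [hec]
    have h5 := hΨv y' hyN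
    rw [ContinuousLinearMap.comp_apply] at h5
    rw [h5, hΨy'] at h4
    exact h4

end Pool.Agent.H11.FB
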