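import Pool.Agent.H11.FB.FlowBox
import Pool.Agent.H64.Nev.Charts

/-!
# Flow boxes of holomorphic foliations on complex manifolds
-/

open MeasureTheory Set Metric Filter Topology
open scoped ContDiff Manifold

namespace Pool.Agent.H11.FB

open Pool.Agent.H64.Nev

variable {E : Type*} [NormedAddCommGroup E] [NormedSpace ℂ E]
  {M : Type*} [TopologicalSpace M] [ChartedSpace E M] [IsManifold 𝓘(ℂ, E) ω M]

omit [IsManifold 𝓘(ℂ, E) ω M] in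
/-- Composition of a chart with a local biholomorphism. -/
lemma trans_mem_maximalAtlas {e₁ : OpenPartialHomeomorph M E}
    (h₁ : e₁ ∈ IsManifold.maximalAtlas 𝓘(ℂ, E) ω M) {e₂ : OpenPartialHomeomorph E E}
    (h2 : ContDiffOn ℂ ω e₂ e₂.source) (h3 : ContDiffOn ℂ ω e₂.symm e₂.target) :
    e₁.trans e₂ ∈ IsManifold.maximalAtlas 𝓘(ℂ, E) ω M := by
  have hG : e₂ ∈ contDiffGroupoid ω 𝓘(ℂ, E) := by
    rw [contDiffGroupoid, mem_groupoid_of_pregroupoid]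
    simp only [contDiffPregroupoid]
    constructor
    · simpa using h2
    · simpa using h3
  intro e' he'
  have h4 := h₁ e' he'
  refine ⟨?_, ?_⟩
  · rw [OpenPartialHomeomorph.trans_symm_eq_symm_trans_symm, OpenPartialHomeomorph.trans_assoc]
    exact (contDiffGroupoid ω 𝓘(ℂ, E)).trans ((contDiffGroupoid ω 𝓘(ℂ, E)).symm hG) h4.1
  · rw [← OpenPartialHomeomorph.trans_assoc]
    exact (contDiffGroupoid ω 𝓘(ℂ, E)).trans h4.2 hG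

/-- Flow boxes of a holomorphic foliation given by holomorphic vector fields. -/
theorem exists_chart_flowBox [FiniteDimensional ℂ E] {ι : Type*} (U : ι → Set M)
    (isOpen_U : ∀ i, IsOpen (U i))
    (X : ι → (x : M) → TangentSpace 𝓘(ℂ, E) x)
    (holo : ∀ i, ∀ e ∈ IsManifold.maximalAtlas 𝓘(ℂ, E) ω M,
      DifferentiableOn ℂ
        (fun y : E => (mfderiv 𝓘(ℂ, E) 𝓘(ℂ, E) e (e.symm y) (X i (e.symm y)) : E))
        (e.target ∩ e.symm ⁻¹' U i))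
    (g : ι → ι → M → ℂ) (g_ne : ∀ i j, ∀ x ∈ U i ∩ U j, g i j x ≠ 0)
    (X_eq : ∀ i j, ∀ x ∈ U i ∩ U j, X i x = g i j x • X j x)
    (x : M) (hx : ∃ i, x ∈ U i ∧ X i x ≠ 0) :
    ∃ e ∈ IsManifold.maximalAtlas 𝓘(ℂ, E) ω M, x ∈ e.source ∧ ∃ v : E, v ≠ 0 ∧
      ∀ i, ∀ y ∈ e.source ∩ U i, ∃ c : ℂ, c ≠ 0 ∧
        (mfderiv 𝓘(ℂ, E) 𝓘(ℂ, E) e y (X i y) : E) = c • v := by
  obtain ⟨i₀, hxU, hX0⟩ := hx
  set e₁ := chartAt E x with he₁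
  have he₁m : e₁ ∈ IsManifold.maximalAtlas 𝓘(ℂ, E) ω M := IsManifold.chart_mem_maximalAtlas x
  have hxs : x ∈ e₁.source := mem_chart_source E x
  set S : Set E := e₁.target ∩ e₁.symm ⁻¹' U i₀ with hS
  have hSo : IsOpen S := e₁.symm.isOpen_inter_preimage (isOpen_U i₀)
  have hxS : e₁ x ∈ S := ⟨e₁.map_source hxs, by
    rw [mem_preimage, e₁.left_inv hxs]; exact hxU⟩
  have hne : (mfderiv 𝓘(ℂ, E) 𝓘(ℂ, E) e₁ (e₁.symm (e₁ x)) (X i₀ (e₁.symm (e₁ x))) : E) ≠ 0 := by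
    have h1 : ∀ x' : M, x' = x → (mfderiv 𝓘(ℂ, E) 𝓘(ℂ, E) e₁ x' (X i₀ x') : E) =
        mfderiv 𝓘(ℂ, E) 𝓘(ℂ, E) e₁ x (X i₀ x) := by rintro _ rfl; rfl
    rw [h1 _ (e₁.left_inv hxs)]
    intro h2
    exact hX0 (dC_injective he₁m hxs h2)
  obtain ⟨e₂, h1, h2, h3, h4, v, hv, h5⟩ := exists_flowBox hSo (holo i₀ e₁ he₁m) hxS hne
  refine ⟨e₁.trans e₂, trans_mem_maximalAtlas he₁m h3 h4, ?_, v, hv, ?_⟩
  · rw [OpenPartialHomeomorph.trans_source]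
    exact ⟨hxs, h1⟩
  · intro i y hy
    obtain ⟨hy1, hyU⟩ := hy
    rw [OpenPartialHomeomorph.trans_source] at hy1
    obtain ⟨hys, hy2⟩ := hy1
    have hyS : e₁ y ∈ S := h2 hy2
    have hyU0 : y ∈ U i₀ := by
      have := hyS.2
      rwa [mem_preimage, e₁.left_inv hys] at this
    refine ⟨g i i₀ y, g_ne i i₀ y ⟨hyU, hyU0⟩, ?_⟩
    have hd1 : MDifferentiableAt 𝓘(ℂ, E) 𝓘(ℂ, E) e₁ y :=
      (contMDiffAt_of_mem_maximalAtlas he₁m hys).mdifferentiableAt (by simp)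
    have hd2 : DifferentiableAt ℂ e₂ (e₁ y) :=
      (h3.differentiableOn (by simp)).differentiableAt (e₂.open_source.mem_nhds hy2)
    have hcomp : (mfderiv 𝓘(ℂ, E) 𝓘(ℂ, E) (e₁.trans e₂) y (X i y) : E) =
        fderiv ℂ e₂ (e₁ y) (mfderiv 𝓘(ℂ, E) 𝓘(ℂ, E) e₁ y (X i y)) := by
      have h6 : (e₁.trans e₂ : M → E) = e₂ ∘ e₁ := OpenPartialHomeomorph.coe_trans _ _
      rw [h6, mfderiv_comp y hd2.mdifferentiableAt hd1, mfderiv_eq_fderiv]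
      rfl
    rw [hcomp, X_eq i i₀ y ⟨hyU, hyU0⟩]
    have h8 := h5 (e₁ y) hy2
    have h9 : ∀ y' : M, y' = y → (mfderiv 𝓘(ℂ, E) 𝓘(ℂ, E) e₁ y' (X i₀ y') : E) =
        mfderiv 𝓘(ℂ, E) 𝓘(ℂ, E) e₁ y (X i₀ y) := by rintro _ rfl; rfl
    rw [h9 _ (e₁.left_inv hys)] at h8
    set w : E := mfderiv 𝓘(ℂ, E) 𝓘(ℂ, E) e₁ y (X i₀ y) with hw
    have h7 : (mfderiv 𝓘(ℂ, E) 𝓘(ℂ, E) e₁ y (g i i₀ y • X i₀ y) : E) = g i i₀ y • w :=
      map_smul _ _ _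
    have h10 : fderiv ℂ e₂ (e₁ y) (mfderiv 𝓘(ℂ, E) 𝓘(ℂ, E) e₁ y (g i i₀ y • X i₀ y) : E) =
        fderiv ℂ e₂ (e₁ y) (g i i₀ y • w) := congrArg _ h7
    refine h10.trans ?_
    rw [map_smul, h8]

end Pool.Agent.H11.FB
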